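import Pool.Agent.Y32.ES.Taylor

/-!
Families of words with polynomial subword counts: closure properties.
-/

set_option autoImplicit false

namespace Pool.Agent.Y32.ES

variable {A σ : Type}

/-- polynomial functions of natural parameters -/
def IsPoly (f : (σ → ℕ) → ℚ) : Prop :=
  ∃ q : MvPolynomial σ ℚ, ∀ n, f n = MvPolynomial.eval (fun s => (n s : ℚ)) q

lemma IsPoly.const (z : ℚ) : IsPoly (fun _ : σ → ℕ => z) := ⟨MvPolynomial.C z, by simp⟩

lemma IsPoly.add {f g : (σ → ℕ) → ℚ} (hf : IsPoly f) (hg : IsPoly g) :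
    IsPoly (fun n => f n + g n) := by
  obtain ⟨p, hp⟩ := hf
  obtain ⟨q, hq⟩ := hg
  exact ⟨p + q, by simp [hp, hq]⟩

lemma IsPoly.mul {f g : (σ → ℕ) → ℚ} (hf : IsPoly f) (hg : IsPoly g) :
    IsPoly (fun n => f n * g n) := by
  obtain ⟨p, hp⟩ := hf
  obtain ⟨q, hq⟩ := hg
  exact ⟨p * q, by simp [hp, hq]⟩

lemma IsPoly.sum {ι : Type} (s : Finset ι) (f : ι → (σ → ℕ) → ℚ) (hf : ∀ i ∈ s, IsPoly (f i)) :
    IsPoly (fun n => ∑ i ∈ s, f i n) := by
  classical
  induction s using Finset.induction_on with
  | empty => simpa using IsPoly.const 0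
  | insert i s hi ih =>
    simp only [Finset.sum_insert hi]
    exact (hf i (Finset.mem_insert_self _ _)).add
      (ih fun j hj => hf j (Finset.mem_insert_of_mem hj))

lemma IsPoly.choose {e : (σ → ℕ) → ℕ} (he : IsPoly (fun n => (e n : ℚ))) (j : ℕ) :
    IsPoly (fun n => ((e n).choose j : ℚ)) := by
  induction j with
  | zero => simpa using IsPoly.const 1
  | succ j ih =>
    have h : (fun n => (((e n).choose (j + 1) : ℕ) : ℚ)) =
        fun n => ((e n).choose j : ℚ) * (((e n : ℚ) + (-(j : ℚ))) * (1 / ((j : ℚ) + 1))) := by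
      funext n
      have h1 := Nat.choose_succ_right_eq (e n) j
      have h2 : (((e n).choose (j + 1) : ℕ) : ℚ) * ((j : ℚ) + 1) =
          ((e n).choose j : ℚ) * ((e n : ℚ) - j) := by
        rcases le_or_gt j (e n) with hj | hj
        · have h3 := congrArg (fun z : ℕ => (z : ℚ)) h1
          push_cast [Nat.cast_sub hj] at h3
          exact h3
        · rw [Nat.choose_eq_zero_of_lt hj, Nat.choose_eq_zero_of_lt (by omega)]
          simp
      have h3 : (j : ℚ) + 1 ≠ 0 := by positivity
      field_simp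
      rw [h2]
      ring
    rw [h]
    exact ih.mul ((he.add (IsPoly.const _)).mul (IsPoly.const _))

/-- functions of `n` and `m` which are combinations of binomial coefficients of `m` -/
def IsQ (F : (σ → ℕ) → ℕ → ℚ) : Prop :=
  ∃ (d : ℕ) (c : ℕ → (σ → ℕ) → ℚ), (∀ j, IsPoly (c j)) ∧
    ∀ n m, F n m = ∑ j ∈ Finset.range d, (m.choose j : ℚ) * c j n

lemma IsQ.zero : IsQ (fun (_ : σ → ℕ) _ => (0 : ℚ)) :=
  ⟨0, fun _ _ => 0, fun _ => IsPoly.const 0, by simp⟩

lemma IsQ.add {F H : (σ → ℕ) → ℕ → ℚ} (hF : IsQ F) (hH : IsQ H) :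
    IsQ (fun n m => F n m + H n m) := by
  obtain ⟨d, c, hc, h⟩ := hF
  obtain ⟨d', c', hc', h'⟩ := hH
  refine ⟨d + d', fun j n => (if j < d then c j n else 0) + (if j < d' then c' j n else 0), ?_, ?_⟩
  · intro j
    refine IsPoly.add ?_ ?_
    · split_ifs
      · exact hc j
      · exact IsPoly.const 0
    · split_ifs
      · exact hc' j
      · exact IsPoly.const 0
  · intro n m
    show F n m + H n m = _
    rw [h, h']
    simp only [mul_add, Finset.sum_add_distrib, mul_ite, mul_zero]
    rw [← Finset.sum_filter, ← Finset.sum_filter]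
    congr 1
    · apply Finset.sum_congr _ fun _ _ => rfl
      ext j
      simp only [Finset.mem_range, Finset.mem_filter]
      omega
    · apply Finset.sum_congr _ fun _ _ => rfl
      ext j
      simp only [Finset.mem_range, Finset.mem_filter]
      omega

lemma IsQ.mul {F : (σ → ℕ) → ℕ → ℚ} (hF : IsQ F) {f : (σ → ℕ) → ℚ} (hf : IsPoly f) :
    IsQ (fun n m => f n * F n m) := by
  obtain ⟨d, c, hc, h⟩ := hF
  refine ⟨d, fun j n => f n * c j n, fun j => hf.mul (hc j), ?_⟩
  intro n m
  show f n * F n m = _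
  rw [h, Finset.mul_sum]
  apply Finset.sum_congr rfl
  intro j _
  ring

lemma IsQ.sum {ι : Type} (s : Finset ι) (F : ι → (σ → ℕ) → ℕ → ℚ) (hF : ∀ i ∈ s, IsQ (F i)) :
    IsQ (fun n m => ∑ i ∈ s, F i n m) := by
  classical
  induction s using Finset.induction_on with
  | empty => simpa using IsQ.zero
  | insert i s hi ih =>
    simp only [Finset.sum_insert hi]
    exact (hF i (Finset.mem_insert_self _ _)).add
      (ih fun j hj => hF j (Finset.mem_insert_of_mem hj))

lemma IsQ.summation {F H : (σ → ℕ) → ℕ → ℚ} (hF : IsQ F) (h0 : IsPoly (fun n => H n 0))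
    (hs : ∀ n m, H n (m + 1) = H n m + F n m) : IsQ H := by
  obtain ⟨d, c, hc, h⟩ := hF
  refine ⟨d + 1, fun j n => Nat.casesOn j (H n 0) (fun j => c j n), ?_, ?_⟩
  · intro j
    cases j with
    | zero => exact h0
    | succ j => exact hc j
  · intro n m
    rw [Finset.sum_range_succ']
    simp only [Nat.choose_zero_right, Nat.cast_one, one_mul]
    induction m with
    | zero => simp
    | succ m ih =>
      rw [hs, ih, h]
      simp only [Nat.choose_succ_succ, Nat.cast_add, add_mul, Finset.sum_add_distrib]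
      ring

lemma IsQ.specialize {F : (σ → ℕ) → ℕ → ℚ} (hF : IsQ F) {e : (σ → ℕ) → ℕ}
    (he : IsPoly (fun n => (e n : ℚ))) : IsPoly (fun n => F n (e n)) := by
  obtain ⟨d, c, hc, h⟩ := hF
  simp only [h]
  exact IsPoly.sum _ _ fun j _ => (he.choose j).mul (hc j)

/-- the subword counts of a product -/
lemma occ_append (v x y : List A) :
    occ v (x ++ y) = ∑ i ∈ Finset.range (v.length + 1), occ (v.take i) x * occ (v.drop i) y := by
  classical
  induction x generalizing v with
  | nil =>
    rw [List.nil_append, Finset.sum_range_succ', Finset.sum_eq_zero, zero_add]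
    · simp [occ_nil]
    · intro i hi
      cases v with
      | nil => simp at hi
      | cons c v => simp [occ]
  | cons d x ih =>
    cases v with
    | nil => simp [occ_nil]
    | cons c v =>
      rw [List.cons_append, occ, ih (c :: v), ih v]
      rw [Finset.sum_range_succ' _ (c :: v).length, Finset.sum_range_succ' _ (c :: v).length]
      simp only [List.length_cons, List.take_succ_cons, List.drop_succ_cons, List.take_zero,
        List.drop_zero, occ, occ_nil, add_mul, Finset.sum_add_distrib]
      by_cases hcd : c = d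
      · simp only [hcd, if_true]
        ring
      · simp only [hcd, if_false]
        simp

/-- a family of words with polynomial subword counts -/
def PolyFam (w : (σ → ℕ) → List A) : Prop := ∀ v, IsPoly (fun n => ((occ v (w n) : ℕ) : ℚ))

lemma PolyFam.const (u : List A) : PolyFam (fun _ : σ → ℕ => u) := fun _ => IsPoly.const _

lemma PolyFam.append {w w' : (σ → ℕ) → List A} (h : PolyFam w) (h' : PolyFam w') :
    PolyFam (fun n => w n ++ w' n) := by
  intro v
  simp only [occ_append, Nat.cast_sum, Nat.cast_mul]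
  exact IsPoly.sum _ _ fun i _ => (h _).mul (h' _)

/-- the powers of a word -/
def pw (x : List A) : ℕ → List A
  | 0 => []
  | m + 1 => x ++ pw x m

lemma isQ_pw {w : (σ → ℕ) → List A} (h : PolyFam w) (k : ℕ) :
    ∀ v : List A, v.length ≤ k → IsQ (fun n m => ((occ v (pw (w n) m) : ℕ) : ℚ)) := by
  induction k with
  | zero =>
    intro v hv
    have : v = [] := List.length_eq_zero_iff.1 (Nat.le_zero.1 hv)
    subst this
    refine ⟨1, fun _ _ => 1, fun _ => IsPoly.const 1, ?_⟩
    intro n m
    simp [occ_nil]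
  | succ k ih =>
    intro v hv
    refine IsQ.summation (F := fun n m => ∑ i ∈ Finset.range v.length,
      ((occ (v.take (i + 1)) (w n) : ℕ) : ℚ) * ((occ (v.drop (i + 1)) (pw (w n) m) : ℕ) : ℚ))
      ?_ ?_ ?_
    · apply IsQ.sum
      intro i _
      refine IsQ.mul (ih _ ?_) (h _)
      rw [List.length_drop]
      omega
    · simp only [pw]
      exact IsPoly.const _
    · intro n m
      rw [pw, occ_append, Finset.sum_range_succ', Nat.cast_add, Nat.cast_sum]
      simp only [List.take_zero, List.drop_zero, occ_nil, one_mul, Nat.cast_mul]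
      ring

lemma PolyFam.pow {w : (σ → ℕ) → List A} (h : PolyFam w) {e : (σ → ℕ) → ℕ}
    (he : IsPoly (fun n => (e n : ℚ))) : PolyFam (fun n => pw (w n) (e n)) :=
  fun v => (isQ_pw h v.length v le_rfl).specialize he

/-- finite determination on a family with polynomial subword counts -/
theorem polyFam_finite {B : Type} [Fintype A] [Finite σ] {w : (σ → ℕ) → List A} (h : PolyFam w)
    (S : Set ((A → List B) × (A → List B))) :
    ∃ T ⊆ S, T.Finite ∧ ∀ n, (∀ p ∈ T, (w n).flatMap p.1 = (w n).flatMap p.2) →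
      ∀ p ∈ S, (w n).flatMap p.1 = (w n).flatMap p.2 := by
  let Ψ : MvPolynomial σ ℚ →+* ((σ → ℕ) → ℚ) :=
    RingHom.pi (fun n => MvPolynomial.eval (fun s => (n s : ℚ)))
  refine core w Ψ.range (isNoetherianRing_range Ψ) ?_ S
  intro v
  obtain ⟨q, hq⟩ := h v
  exact ⟨q, funext fun n => (hq n).symm⟩

end Pool.Agent.Y32.ES
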