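import Pool.Agent.Y32.ES.Word

/-!
Pairs of morphisms whose weights lie on one ray: finite determination by linear algebra.
-/

set_option autoImplicit false

namespace Pool.Agent.Y32.ES

open Polynomial

/-- finitely many members of a family of functionals suffice -/
lemma finite_functionals {F ι I : Type} [Field F] [Fintype ι] (f : I → ι → F) :
    ∃ J : Set I, J.Finite ∧ J.ncard ≤ Fintype.card ι ∧
      ∀ v : ι → F, (∀ j ∈ J, ∑ i, f j i * v i = 0) → ∀ j, ∑ i, f j i * v i = 0 := by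
  classical
  obtain ⟨b, hb, hspan, hlin⟩ := exists_linearIndependent F (Set.range f)
  have hfin : b.Finite := hlin.setFinite
  have hcard : b.ncard ≤ Fintype.card ι := by
    have := hfin.fintype
    have h1 := hlin.fintype_card_le_finrank
    rw [Module.finrank_fintype_fun_eq_card] at h1
    rw [← Nat.card_coe_set_eq, Nat.card_eq_fintype_card]
    exact h1
  have hsec : ∀ u : b, ∃ j, f j = u := fun u => hb u.2
  choose σ hσ using hsec
  have := hfin.fintype
  refine ⟨Set.range σ, Set.finite_range σ, ?_, ?_⟩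
  · calc (Set.range σ).ncard = (σ '' Set.univ).ncard := by rw [Set.image_univ]
      _ ≤ (Set.univ : Set b).ncard := Set.ncard_image_le Set.finite_univ
      _ = b.ncard := by rw [Set.ncard_univ, Nat.card_coe_set_eq]
      _ ≤ _ := hcard
  · intro v hv j
    let φ : (ι → F) →ₗ[F] F :=
      { toFun := fun u => ∑ i, u i * v i
        map_add' := by
          intro x y
          simp [add_mul, Finset.sum_add_distrib]
        map_smul' := by
          intro c x
          simp [Finset.mul_sum, mul_assoc] }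
    have hb0 : b ⊆ (LinearMap.ker φ : Set (ι → F)) := by
      intro u hu
      have := hv (σ ⟨u, hu⟩) ⟨⟨u, hu⟩, rfl⟩
      rw [hσ] at this
      exact this
    have h1 : Submodule.span F b ≤ LinearMap.ker φ := Submodule.span_le.2 hb0
    rw [hspan] at h1
    exact h1 (Submodule.subset_span ⟨j, rfl⟩)

/-- the functional of a pair -/
noncomputable def Lam {A B : Type} (ω : B → ℕ) (b : B) (N r : ℕ) (g h : A → List B) :
    A ⊕ A → FractionRing ℤ[X] :=
  Sum.elim (fun c => algebraMap ℤ[X] _ (contract N (X ^ r * G ω b (g c))))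
    (fun c => - algebraMap ℤ[X] _ (contract N (X ^ r * G ω b (h c))))

/-- the vector of a word -/
noncomputable def Vec {A : Type} (κ : (A → ℕ) × (A → ℕ)) (x : List A) :
    A ⊕ A → FractionRing ℤ[X] :=
  Sum.elim (fun c => algebraMap ℤ[X] _ (P κ.1 c x)) (fun c => algebraMap ℤ[X] _ (P κ.2 c x))

/-- `(g, h)` has type `κ`, with the weights `ω` and the factor `N` -/
def IsType {A B : Type} (κ : (A → ℕ) × (A → ℕ)) (ω : B → ℕ) (N : ℕ) (g h : A → List B) : Prop :=
  (∀ b b', ω b = 0 → ω b' = 0 → b = b') ∧ N ≠ 0 ∧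
    (∀ c, wt ω (g c) = N * κ.1 c) ∧ ∀ c, wt ω (h c) = N * κ.2 c

lemma pairing {A B : Type} [Fintype A] {κ : (A → ℕ) × (A → ℕ)} {ω : B → ℕ} {N : ℕ}
    {g h : A → List B} (ht : IsType κ ω N g h) (b : B) (r : ℕ) (x : List A) :
    ∑ i, Lam ω b N r g h i * Vec κ x i =
      algebraMap ℤ[X] (FractionRing ℤ[X])
        (contract N (X ^ r * G ω b (x.flatMap g)) - contract N (X ^ r * G ω b (x.flatMap h))) := by
  obtain ⟨_, hN, hg, hh⟩ := ht
  rw [contract_image ω b g κ.1 N hN hg, contract_image ω b h κ.2 N hN hh, Fintype.sum_sum_type,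
    map_sub, map_sum, map_sum]
  simp only [Lam, Vec, Sum.elim_inl, Sum.elim_inr, map_mul, neg_mul, Finset.sum_neg_distrib]
  ring

lemma equal_iff {A B : Type} [Fintype A] {κ : (A → ℕ) × (A → ℕ)} {ω : B → ℕ} {N : ℕ}
    {g h : A → List B} (ht : IsType κ ω N g h) (x : List A) :
    x.flatMap g = x.flatMap h ↔ ∀ b r, ∑ i, Lam ω b N r g h i * Vec κ x i = 0 := by
  constructor
  · intro he b r
    rw [pairing ht, he, sub_self, map_zero]
  · intro h0
    apply G_inj ω ht.1
    intro b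
    have h1 : G ω b (x.flatMap g) - G ω b (x.flatMap h) = 0 := by
      apply zero_of_contract N ht.2.1
      intro r
      have h2 := h0 b r
      rw [pairing ht] at h2
      have h3 := (IsFractionRing.injective ℤ[X] (FractionRing ℤ[X])) (h2.trans (map_zero _).symm)
      ext n
      have h4 := congrArg (fun f => f.coeff n) h3
      simp only [coeff_sub, coeff_contract ht.2.1, coeff_zero, mul_sub] at h4 ⊢
      exact h4
    exact sub_eq_zero.1 h1

/-- the case of one ray -/
lemma one_ray {A B : Type} [Fintype A] (κ : (A → ℕ) × (A → ℕ))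
    (S : Set ((A → List B) × (A → List B)))
    (hS : ∀ p ∈ S, ∃ ω N, IsType κ ω N p.1 p.2) :
    ∃ T ⊆ S, T.Finite ∧ T.ncard ≤ 2 * Fintype.card A ∧
      ∀ x : List A, (∀ p ∈ T, x.flatMap p.1 = x.flatMap p.2) →
        ∀ p ∈ S, x.flatMap p.1 = x.flatMap p.2 := by
  classical
  have hS' : ∀ p : S, ∃ ω N, IsType κ ω N p.1.1 p.1.2 := fun p => hS p.1 p.2
  choose ω N ht using hS'
  obtain ⟨J, hfin, hcard, hJ⟩ := finite_functionals
    (fun i : S × B × ℕ => Lam (ω i.1) i.2.1 (N i.1) i.2.2 i.1.1.1 i.1.1.2)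
  refine ⟨(fun i : S × B × ℕ => (i.1 : (A → List B) × (A → List B))) '' J, ?_, hfin.image _, ?_, ?_⟩
  · rintro p ⟨i, _, rfl⟩
    exact i.1.2
  · refine (Set.ncard_image_le hfin).trans (hcard.trans ?_)
    rw [Fintype.card_sum]
    omega
  · intro x hx p hp
    rw [equal_iff (ht ⟨p, hp⟩)]
    intro b r
    refine hJ (Vec κ x) ?_ (⟨p, hp⟩, b, r)
    intro j hj
    exact (equal_iff (ht j.1) x).1 (hx _ ⟨j, hj, rfl⟩) _ _

/-- finitely many rays -/
lemma rays {A B : Type} [Fintype A] (K : Finset ((A → ℕ) × (A → ℕ)))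
    (S : Set ((A → List B) × (A → List B)))
    (hS : ∀ p ∈ S, ∃ κ ∈ K, ∃ ω N, IsType κ ω N p.1 p.2) :
    ∃ T ⊆ S, T.Finite ∧ T.ncard ≤ 2 * Fintype.card A * K.card ∧
      ∀ x : List A, (∀ p ∈ T, x.flatMap p.1 = x.flatMap p.2) →
        ∀ p ∈ S, x.flatMap p.1 = x.flatMap p.2 := by
  classical
  induction K using Finset.induction_on generalizing S with
  | empty =>
    refine ⟨∅, Set.empty_subset _, Set.finite_empty, by simp, ?_⟩
    intro x _ p hp
    obtain ⟨κ, hκ, _⟩ := hS p hp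
    simp at hκ
  | insert κ K hκ ih =>
    obtain ⟨T₁, h1, h2, h3, h4⟩ := one_ray κ {p ∈ S | ∃ ω N, IsType κ ω N p.1 p.2}
      (fun p hp => hp.2)
    obtain ⟨T₂, k1, k2, k3, k4⟩ := ih {p ∈ S | ∃ κ ∈ K, ∃ ω N, IsType κ ω N p.1 p.2}
      (fun p hp => hp.2)
    refine ⟨T₁ ∪ T₂, ?_, h2.union k2, ?_, ?_⟩
    · rintro p (hp | hp)
      · exact (h1 hp).1
      · exact (k1 hp).1
    · refine (Set.ncard_union_le _ _).trans ?_
      rw [Finset.card_insert_of_notMem hκ]
      nlinarith
    · intro x hx p hp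
      obtain ⟨κ', hκ', ht⟩ := hS p hp
      rcases Finset.mem_insert.1 hκ' with rfl | hκ''
      · exact h4 x (fun q hq => hx q (Or.inl hq)) p ⟨hp, ht⟩
      · exact k4 x (fun q hq => hx q (Or.inr hq)) p ⟨hp, κ', hκ'', ht⟩

end Pool.Agent.Y32.ES
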