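import Pool.Agent.Y32.ES.Word

/-!
The Taylor coefficients at `1` of the polynomials of an image are integral combinations of the
numbers of occurrences of scattered subwords.
-/

set_option autoImplicit false

namespace Pool.Agent.Y32.ES

open Polynomial

open Classical in
/-- the number of occurrences of `v` as a scattered subword of `x` -/
noncomputable def occ {A : Type} : List A → List A → ℕ
  | [], _ => 1
  | _ :: _, [] => 0
  | c :: v, d :: x => occ (c :: v) x + if c = d then occ v x else 0

lemma occ_nil {A : Type} (x : List A) : occ [] x = 1 := by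
  cases x <;> simp [occ]

/-- the integral combinations of the subword counts -/
noncomputable def V (A : Type) : Submodule ℤ (List A → ℤ) :=
  Submodule.span ℤ (Set.range fun v : List A => fun x => (occ v x : ℤ))

open Classical in
/-- summation over the occurrences of `c` -/
noncomputable def J {A : Type} (c : A) (H : List A → ℤ) : List A → ℤ
  | [] => 0
  | d :: x => J c H x + if c = d then H x else 0

lemma J_occ {A : Type} (c : A) (v : List A) :
    J c (fun x => (occ v x : ℤ)) = fun x => (occ (c :: v) x : ℤ) := by
  funext x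
  induction x with
  | nil => simp [J, occ]
  | cons d x ih =>
    simp only [J, occ, ih, Nat.cast_add]
    congr 1
    split_ifs <;> simp

lemma J_add {A : Type} (c : A) (H H' : List A → ℤ) : J c (H + H') = J c H + J c H' := by
  funext x
  induction x with
  | nil => simp [J]
  | cons d x ih =>
    simp only [J, ih, Pi.add_apply]
    split_ifs <;> ring

lemma J_zero {A : Type} (c : A) : J c (0 : List A → ℤ) = 0 := by
  funext x
  induction x with
  | nil => simp [J]
  | cons d x ih =>
    simp only [J, ih, Pi.zero_apply]
    split_ifs <;> ring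

lemma J_smul {A : Type} (c : A) (n : ℤ) (H : List A → ℤ) : J c (n • H) = n • J c H := by
  funext x
  induction x with
  | nil => simp [J]
  | cons d x ih =>
    simp only [J, ih, Pi.smul_apply, smul_eq_mul]
    split_ifs <;> ring

lemma J_mem {A : Type} (c : A) (H : List A → ℤ) (hH : H ∈ V A) : J c H ∈ V A := by
  unfold V at hH
  induction hH using Submodule.span_induction with
  | mem x hx =>
    obtain ⟨v, rfl⟩ := hx
    rw [J_occ]
    exact Submodule.subset_span ⟨_, rfl⟩
  | zero => rw [J_zero]; exact Submodule.zero_mem _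
  | add x y _ _ hx hy => rw [J_add]; exact Submodule.add_mem _ hx hy
  | smul n x _ hx => rw [J_smul]; exact Submodule.smul_mem _ _ hx

lemma const_mem {A : Type} (z : ℤ) : (fun _ : List A => z) ∈ V A := by
  have h : (fun _ : List A => z) = z • (fun x => (occ [] x : ℤ)) := by
    funext x
    simp [occ_nil]
  rw [h]
  exact Submodule.smul_mem _ _ (Submodule.subset_span ⟨_, rfl⟩)

lemma recon {A : Type} [Fintype A] (F : List A → ℤ) (x : List A) :
    F x = F [] + ∑ c, J c (fun y => F (c :: y) - F y) x := by
  classical
  induction x with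
  | nil => simp [J]
  | cons d x ih =>
    simp only [J, Finset.sum_add_distrib]
    have h : (∑ c, (@ite ℤ (c = d) (Classical.propDecidable _) (F (c :: x) - F x) 0)) =
        F (d :: x) - F x := by
      rw [Finset.sum_eq_single d]
      · rw [if_pos rfl]
      · intro c _ hc
        rw [if_neg hc]
      · intro hd
        exact absurd (Finset.mem_univ d) hd
    rw [h]
    linarith

lemma mem_of_diff {A : Type} [Fintype A] (F : List A → ℤ)
    (h : ∀ c, (fun y => F (c :: y) - F y) ∈ V A) : F ∈ V A := by
  have h1 : F = (fun _ => F []) + ∑ c, J c (fun y => F (c :: y) - F y) := by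
    funext x
    rw [Pi.add_apply, Finset.sum_apply]
    exact recon F x
  rw [h1]
  exact Submodule.add_mem _ (const_mem _) (Submodule.sum_mem _ fun c _ => J_mem c _ (h c))

/-- the Taylor coefficients -/
noncomputable def tc {A B : Type} (ω : B → ℕ) (g : A → List B) (b : B) (r : ℕ) (x : List A) : ℤ :=
  ((G ω b (x.flatMap g)).comp (X + 1)).coeff r

lemma tc_mem {A B : Type} [Fintype A] (ω : B → ℕ) (g : A → List B) (b : B) (r : ℕ) :
    tc ω g b r ∈ V A := by
  induction r using Nat.strong_induction_on with
  | _ r ih =>
    apply mem_of_diff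
    intro c
    have h1 : (fun y => tc ω g b r (c :: y) - tc ω g b r y) =
        (fun _ => ((G ω b (g c)).comp (X + 1)).coeff r) +
          ∑ i ∈ Finset.range r, (((wt ω (g c)).choose (r - i) : ℕ) : ℤ) • tc ω g b i := by
      funext y
      rw [Pi.add_apply, Finset.sum_apply]
      simp only [Pi.smul_apply, smul_eq_mul]
      unfold tc
      rw [List.flatMap_cons, G_append, add_comp, mul_comp, X_pow_comp, coeff_add,
        mul_comm ((X + 1 : ℤ[X]) ^ _), coeff_mul,
        Finset.Nat.sum_antidiagonal_eq_sum_range_succ_mk, Finset.sum_range_succ]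
      simp only [coeff_X_add_one_pow, Nat.sub_self, Nat.choose_zero_right, Nat.cast_one, mul_one]
      rw [add_sub_assoc, add_sub_cancel_right]
      congr 1
      apply Finset.sum_congr rfl
      intro i _
      ring
    rw [h1]
    refine Submodule.add_mem _ (const_mem _) (Submodule.sum_mem _ fun i hi => ?_)
    exact Submodule.smul_mem _ _ (ih i (Finset.mem_range.1 hi))

lemma comp_inj (f : ℤ[X]) (h : f.comp (X + 1) = 0) : f = 0 := by
  have h1 : (f.comp (X + 1)).comp (X - 1) = f := by
    rw [comp_assoc]
    simp
  rw [← h1, h, zero_comp]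

lemma agree_iff_tc {A B : Type} (ω : B → ℕ) (hω : ∀ b b', ω b = 0 → ω b' = 0 → b = b')
    (g h : A → List B) (x : List A) :
    x.flatMap g = x.flatMap h ↔ ∀ b r, tc ω g b r x - tc ω h b r x = 0 := by
  constructor
  · intro he b r
    unfold tc
    rw [he, sub_self]
  · intro h0
    apply G_inj ω hω
    intro b
    rw [← sub_eq_zero]
    apply comp_inj
    ext r
    rw [sub_comp, coeff_sub]
    exact h0 b r

/-- Finite determination on a family of words all of whose subword counts lie in a Noetherian ring
of functions. -/
theorem core {I A B K : Type} [Fintype A] [CommRing K] [CharZero K] (w : I → List A)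
    (R : Subring (I → K)) (hN : IsNoetherianRing R)
    (hR : ∀ v, (fun i => ((occ v (w i) : ℕ) : K)) ∈ R) (S : Set ((A → List B) × (A → List B))) :
    ∃ T ⊆ S, T.Finite ∧ ∀ i, (∀ p ∈ T, (w i).flatMap p.1 = (w i).flatMap p.2) →
      ∀ p ∈ S, (w i).flatMap p.1 = (w i).flatMap p.2 := by
  classical
  have hV : ∀ F ∈ V A, (fun i => ((F (w i) : ℤ) : K)) ∈ R := by
    intro F hF
    unfold V at hF
    induction hF using Submodule.span_induction with
    | mem x hx =>
      obtain ⟨v, rfl⟩ := hx
      simpa using hR v
    | zero =>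
      have := R.zero_mem
      convert this using 1
      funext i
      simp
    | add x y _ _ hx hy =>
      have := R.add_mem hx hy
      convert this using 1
      funext i
      simp
    | smul n x _ hx =>
      have := R.zsmul_mem hx n
      convert this using 1
      funext i
      simp
  set ω : B → ℕ := fun _ => 1 with hωd
  have hω : ∀ b b', ω b = 0 → ω b' = 0 → b = b' := by
    intro b b' h
    simp [hωd] at h
  let q : (S × B × ℕ) → R := fun j =>
    ⟨fun i => (((tc ω j.1.1.1 j.2.1 j.2.2 (w i) - tc ω j.1.1.2 j.2.1 j.2.2 (w i) : ℤ)) : K),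
      hV (tc ω j.1.1.1 j.2.1 j.2.2 - tc ω j.1.1.2 j.2.1 j.2.2)
        (Submodule.sub_mem _ (tc_mem _ _ _ _) (tc_mem _ _ _ _))⟩
  have hfg : (Submodule.span R (Set.range q)).FG := IsNoetherian.noetherian _
  rw [Submodule.fg_span_iff_fg_span_finset_subset] at hfg
  obtain ⟨s, hs, hspan⟩ := hfg
  have hsec : ∀ u : s, ∃ j, q j = u := fun u => hs u.2
  choose σ hσ using hsec
  refine ⟨Set.range (fun u : s => ((σ u).1 : (A → List B) × (A → List B))), ?_,
    Set.finite_range _, ?_⟩
  · rintro _ ⟨u, rfl⟩
    exact (σ u).1.2
  · intro i hi p hp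
    rw [agree_iff_tc ω hω]
    intro b r
    let ev : R →+* K := (Pi.evalRingHom (fun _ : I => K) i).comp R.subtype
    have h1 : ∀ j, q j ∈ RingHom.ker ev := by
      have h2 : Submodule.span R (Set.range q) ≤ (RingHom.ker ev : Ideal R) := by
        rw [hspan, Submodule.span_le]
        intro u hu
        have h3 := hi _ ⟨⟨u, hu⟩, rfl⟩
        rw [agree_iff_tc ω hω] at h3
        have h4 := h3 (σ ⟨u, hu⟩).2.1 (σ ⟨u, hu⟩).2.2
        have h5 : ev (q (σ ⟨u, hu⟩)) = 0 := by
          show (((_ : ℤ)) : K) = 0
          rw [h4]
          simp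
        rw [hσ] at h5
        exact h5
      intro j
      exact h2 (Submodule.subset_span ⟨j, rfl⟩)
    have h6 := h1 (⟨p, hp⟩, b, r)
    rw [RingHom.mem_ker] at h6
    have h7 : (((tc ω p.1 b r (w i) - tc ω p.2 b r (w i) : ℤ)) : K) = 0 := h6
    exact_mod_cast h7

end Pool.Agent.Y32.ES
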