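import Mathlib

/-!
Words as polynomials: the occurrences of each letter, with the weight of the preceding letters as
exponent.
-/

set_option autoImplicit false

namespace Pool.Agent.Y32.ES

open Polynomial

/-- the sum of the weights of the letters of `w` -/
def wt {B : Type} (ω : B → ℕ) : List B → ℕ
  | [] => 0
  | c :: w => ω c + wt ω w

open Classical in
/-- the generating function of the occurrences of `b` -/
noncomputable def G {B : Type} (ω : B → ℕ) (b : B) : List B → ℤ[X]
  | [] => 0
  | c :: w => (if b = c then 1 else 0) + X ^ (ω c) * G ω b w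

lemma wt_append {B : Type} (ω : B → ℕ) (u v : List B) : wt ω (u ++ v) = wt ω u + wt ω v := by
  induction u with
  | nil => simp [wt]
  | cons c u ih => simp only [List.cons_append, wt, ih]; ring

lemma G_append {B : Type} (ω : B → ℕ) (b : B) (u v : List B) :
    G ω b (u ++ v) = G ω b u + X ^ (wt ω u) * G ω b v := by
  induction u with
  | nil => simp [G, wt]
  | cons c u ih =>
    simp only [List.cons_append, G, wt, ih, pow_add]
    ring

lemma coeff_shift_nonneg (e n : ℕ) (f : ℤ[X]) (h : ∀ n, 0 ≤ f.coeff n) :
    0 ≤ (X ^ e * f).coeff n := by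
  rw [coeff_X_pow_mul']
  split_ifs
  · exact h _
  · exact le_refl _

lemma G_nonneg {B : Type} (ω : B → ℕ) (b : B) (w : List B) (n : ℕ) : 0 ≤ (G ω b w).coeff n := by
  induction w generalizing n with
  | nil => simp [G]
  | cons c w ih =>
    rw [G, coeff_add]
    apply add_nonneg
    · split_ifs
      · rw [coeff_one]
        split_ifs <;> simp
      · simp
    · exact coeff_shift_nonneg _ _ _ ih

lemma G_head {B : Type} (ω : B → ℕ) (c : B) (w : List B) : 1 ≤ (G ω c (c :: w)).coeff 0 := by
  rw [G, coeff_add, if_pos rfl, coeff_one_zero]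
  exact le_add_of_nonneg_right (coeff_shift_nonneg _ _ _ (G_nonneg ω c w))

lemma G_other {B : Type} (ω : B → ℕ) (b c : B) (w : List B) (h : b ≠ c) (ha : ω c ≠ 0) :
    (G ω b (c :: w)).coeff 0 = 0 := by
  rw [G, coeff_add, if_neg h, coeff_X_pow_mul', if_neg (by omega)]
  simp

/-- the generating functions of all letters determine the word -/
lemma G_inj {B : Type} (ω : B → ℕ) (hω : ∀ b b', ω b = 0 → ω b' = 0 → b = b') (w w' : List B)
    (h : ∀ b, G ω b w = G ω b w') : w = w' := by
  induction w generalizing w' with
  | nil =>
    cases w' with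
    | nil => rfl
    | cons c u =>
      have h1 := G_head ω c u
      rw [← h c] at h1
      simp [G] at h1
  | cons c u ih =>
    cases w' with
    | nil =>
      have h1 := G_head ω c u
      rw [h c] at h1
      simp [G] at h1
    | cons c' u' =>
      have hc : c = c' := by
        by_contra hne
        by_cases ha : ω c = 0
        · have ha' : ω c' ≠ 0 := fun h' => hne (hω c c' ha h')
          have h1 := G_head ω c u
          rw [h c, G_other ω c c' u' hne ha'] at h1
          omega
        · have h1 := G_head ω c' u'
          rw [← h c', G_other ω c' c u (Ne.symm hne) ha] at h1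
          omega
      subst hc
      congr 1
      apply ih
      intro b
      have hb := h b
      simp only [G] at hb
      exact mul_left_cancel₀ (pow_ne_zero _ X_ne_zero) (add_left_cancel hb)

open Classical in
/-- the positions of the letter `c` in `x`, measured with the weights `p` -/
noncomputable def P {A : Type} (p : A → ℕ) (c : A) : List A → ℤ[X]
  | [] => 0
  | d :: x => (if c = d then 1 else 0) + X ^ p d * P p c x

/-- the polynomials of an image -/
lemma G_image {A B : Type} [Fintype A] (ω : B → ℕ) (b : B) (g : A → List B) (p : A → ℕ) (N : ℕ)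
    (hg : ∀ c, wt ω (g c) = N * p c) (x : List A) :
    G ω b (x.flatMap g) = ∑ c, G ω b (g c) * expand ℤ N (P p c x) := by
  classical
  induction x with
  | nil => simp [G, P]
  | cons d x ih =>
    rw [List.flatMap_cons, G_append, ih, hg]
    have h1 : ∀ c, expand ℤ N (P p c (d :: x)) =
        (@ite ℤ[X] (c = d) (Classical.propDecidable _) 1 0) +
          X ^ (N * p d) * expand ℤ N (P p c x) := by
      intro c
      rw [P, map_add, map_mul, map_pow, expand_X, ← pow_mul]
      congr 1
      split_ifs <;> simp
    simp only [h1, mul_add, Finset.sum_add_distrib, mul_ite, mul_one, mul_zero]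
    have h2 : (∑ c, (@ite ℤ[X] (c = d) (Classical.propDecidable _) (G ω b (g c)) 0)) =
        G ω b (g d) := by
      rw [Finset.sum_eq_single d]
      · rw [if_pos rfl]
      · intro c _ hc
        rw [if_neg hc]
      · intro hd
        exact absurd (Finset.mem_univ d) hd
    rw [h2, Finset.mul_sum]
    congr 1
    apply Finset.sum_congr rfl
    intro c _
    ring

/-- a polynomial all of whose shifted contractions vanish is zero -/
lemma zero_of_contract (N : ℕ) (hN : N ≠ 0) (D : ℤ[X])
    (h : ∀ r : ℕ, contract N (X ^ r * D) = 0) : D = 0 := by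
  ext i
  have h1 := congrArg (fun f => f.coeff i) (h (i * (N - 1)))
  simp only [coeff_contract hN, coeff_zero] at h1
  have h2 : i * N = i + i * (N - 1) := by
    obtain ⟨M, rfl⟩ := Nat.exists_eq_succ_of_ne_zero hN
    simp only [Nat.succ_eq_add_one, Nat.add_sub_cancel]
    ring
  rw [h2, coeff_X_pow_mul] at h1
  rw [h1, coeff_zero]

lemma contract_sum {ι : Type} (N : ℕ) (hN : N ≠ 0) (s : Finset ι) (f : ι → ℤ[X]) :
    contract N (∑ i ∈ s, f i) = ∑ i ∈ s, contract N (f i) := by
  classical
  induction s using Finset.induction_on with
  | empty =>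
    simp only [Finset.sum_empty]
    ext n
    rw [coeff_contract hN]
    simp
  | insert i s hi ih => rw [Finset.sum_insert hi, Finset.sum_insert hi, contract_add hN, ih]

lemma contract_image {A B : Type} [Fintype A] (ω : B → ℕ) (b : B) (g : A → List B) (p : A → ℕ)
    (N : ℕ) (hN : N ≠ 0) (hg : ∀ c, wt ω (g c) = N * p c) (x : List A) (r : ℕ) :
    contract N (X ^ r * G ω b (x.flatMap g)) =
      ∑ c, contract N (X ^ r * G ω b (g c)) * P p c x := by
  rw [G_image ω b g p N hg x, Finset.mul_sum, contract_sum N hN]
  apply Finset.sum_congr rfl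
  intro c _
  rw [← mul_assoc, contract_mul_expand hN]

end Pool.Agent.Y32.ES
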